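import Pool.Agent.Helper64.CX.Field

/-!
CX-4. Finitary linear groups are groups of units of locally finite-dimensional algebras.
-/

set_option autoImplicit false

namespace Pool.Agent.Helper64.CX

universe u w

section

variable (K : Type u) [Field K] (V : Type w) [AddCommGroup V] [Module K V]

/-- the scalars plus the operators of finite rank -/
def fin : Subalgebra K (Module.End K V) where
  carrier := {a | ∃ (c : K) (U : Submodule K V), Module.Finite K U ∧ ∀ v, a v - c • v ∈ U}
  mul_mem' := by
    rintro a b ⟨c, U, hU, ha⟩ ⟨d, U', hU', hb⟩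
    refine ⟨c * d, U ⊔ U', inferInstance, fun v => ?_⟩
    have e : (a * b) v - (c * d) • v = (a (b v) - c • b v) + c • (b v - d • v) := by
      rw [Module.End.mul_apply, smul_sub, smul_smul]
      abel
    rw [e]
    exact add_mem (Submodule.mem_sup_left (ha _))
      (Submodule.mem_sup_right (Submodule.smul_mem _ _ (hb v)))
  add_mem' := by
    rintro a b ⟨c, U, hU, ha⟩ ⟨d, U', hU', hb⟩
    refine ⟨c + d, U ⊔ U', inferInstance, fun v => ?_⟩
    have e : (a + b) v - (c + d) • v = (a v - c • v) + (b v - d • v) := by
      rw [LinearMap.add_apply, add_smul]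
      abel
    rw [e]
    exact add_mem (Submodule.mem_sup_left (ha _)) (Submodule.mem_sup_right (hb v))
  algebraMap_mem' := by
    intro c
    refine ⟨c, ⊥, inferInstance, fun v => ?_⟩
    rw [Module.algebraMap_end_apply, sub_self]
    exact zero_mem _

variable {K V}

/-- the elements of `fin` which are `c + r`, `r` with range in `U` and kernel containing `N` -/
def box (U N : Submodule K V) : Subalgebra K (fin K V) where
  carrier := {a | ∃ c : K, ∀ v, (a : Module.End K V) v - c • v ∈ U ∧
    (v ∈ N → (a : Module.End K V) v = c • v)}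
  mul_mem' := by
    rintro a b ⟨c, ha⟩ ⟨d, hb⟩
    refine ⟨c * d, fun v => ⟨?_, fun hv => ?_⟩⟩
    · have e : ((a * b : fin K V) : Module.End K V) v - (c * d) • v =
          ((a : Module.End K V) ((b : Module.End K V) v) - c • (b : Module.End K V) v) +
            c • ((b : Module.End K V) v - d • v) := by
        show (a : Module.End K V) ((b : Module.End K V) v) - (c * d) • v = _
        rw [smul_sub, smul_smul]
        abel
      rw [e]
      exact add_mem (ha _).1 (Submodule.smul_mem _ _ (hb v).1)
    · show (a : Module.End K V) ((b : Module.End K V) v) = _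
      rw [(hb v).2 hv, map_smul, (ha v).2 hv, smul_smul, mul_comm]
  add_mem' := by
    rintro a b ⟨c, ha⟩ ⟨d, hb⟩
    refine ⟨c + d, fun v => ⟨?_, fun hv => ?_⟩⟩
    · have e : ((a + b : fin K V) : Module.End K V) v - (c + d) • v =
          ((a : Module.End K V) v - c • v) + ((b : Module.End K V) v - d • v) := by
        show (a : Module.End K V) v + (b : Module.End K V) v - (c + d) • v = _
        rw [add_smul]
        abel
      rw [e]
      exact add_mem (ha _).1 (hb v).1
    · show (a : Module.End K V) v + (b : Module.End K V) v = _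
      rw [(hb v).2 hv, (ha v).2 hv, add_smul]
  algebraMap_mem' := by
    intro c
    refine ⟨c, fun v => ⟨?_, fun _ => rfl⟩⟩
    show c • v - c • v ∈ U
    rw [sub_self]
    exact zero_mem _

theorem box_finite (U N : Submodule K V) [Module.Finite K U] [Module.Finite K (V ⧸ N)] :
    Module.Finite K (box U N) := by
  -- an injection into `K × ((V ⧸ N) → U)` is given by the surjection below
  let F : K × ((V ⧸ N) →ₗ[K] U) →ₗ[K] Module.End K V :=
    LinearMap.coprod (LinearMap.toSpanSingleton K _ 1)
      ((LinearMap.compRight K U.subtype).comp (LinearMap.lcomp K U N.mkQ))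
  have hF : ∀ (c : K) (φ : (V ⧸ N) →ₗ[K] U) (v : V), F (c, φ) v = c • v + (φ (N.mkQ v) : V) := by
    intro c φ v
    rfl
  let G : box U N →ₗ[K] Module.End K V :=
    (fin K V).val.toLinearMap.comp (box U N).val.toLinearMap
  have hG : Function.Injective G := fun x y hxy => Subtype.ext (Subtype.ext hxy)
  have hle : LinearMap.range G ≤ LinearMap.range F := by
    rintro _ ⟨a, rfl⟩
    obtain ⟨c, ha⟩ := a.2
    let r : V →ₗ[K] U := LinearMap.codRestrict U (((a : fin K V) : Module.End K V) -
      algebraMap K (Module.End K V) c) (fun v => (ha v).1)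
    have hr : N ≤ LinearMap.ker r := by
      intro v hv
      rw [LinearMap.mem_ker]
      apply Subtype.ext
      show ((a : fin K V) : Module.End K V) v - c • v = 0
      rw [(ha v).2 hv, sub_self]
    refine ⟨(c, N.liftQ r hr), ?_⟩
    refine LinearMap.ext fun v => ?_
    rw [hF, Submodule.mkQ_apply, Submodule.liftQ_apply]
    show c • v + (((a : fin K V) : Module.End K V) v - c • v) = ((a : fin K V) : Module.End K V) v
    abel
  have h1 : Module.Finite K (LinearMap.range F) := inferInstance
  have h2 : Module.Finite K (LinearMap.range G) := Submodule.finiteDimensional_of_le hle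
  exact Module.Finite.equiv (LinearEquiv.ofInjective G hG).symm

theorem locFinDim (s : Finset (fin K V)) :
    ∃ D : Subalgebra K (fin K V), Module.Finite K D ∧ ∀ a ∈ s, a ∈ D := by
  classical
  have hex : ∀ a : fin K V, ∃ (c : K) (U : Submodule K V), Module.Finite K U ∧
      ∀ v, (a : Module.End K V) v - c • v ∈ U := fun a => a.2
  choose c U hU hc using hex
  let r : ∀ a : fin K V, V →ₗ[K] U a := fun a => LinearMap.codRestrict (U a)
    ((a : Module.End K V) - algebraMap K (Module.End K V) (c a)) (hc a)
  let Φ : V →ₗ[K] (∀ a : s, U a) := LinearMap.pi fun a => r a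
  have : ∀ a : s, Module.Finite K (U a) := fun a => hU a
  have h1 : Module.Finite K (V ⧸ LinearMap.ker Φ) :=
    Module.Finite.equiv Φ.quotKerEquivRange.symm
  have h2 : Module.Finite K (s.sup U : Submodule K V) := Submodule.finiteDimensional_finset_sup s U
  refine ⟨box (s.sup U) (LinearMap.ker Φ), box_finite _ _, fun a ha => ⟨c a, fun v => ⟨?_, ?_⟩⟩⟩
  · exact (Finset.le_sup (f := U) ha) (hc a v)
  · intro hv
    rw [LinearMap.mem_ker] at hv
    have h3 : (r a v : V) = 0 := by
      have := congrFun hv ⟨a, ha⟩
      rw [show r a v = 0 from this]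
      rfl
    have h4 : (a : Module.End K V) v - c a • v = 0 := h3
    rw [sub_eq_zero] at h4
    exact h4

/-- a group of operators `c + r` with `r` of finite rank -/
theorem inUnits_of_finitary {G : Type w} [Group G] (f : G →* Module.End K V)
    (hf : Function.Injective f)
    (hfin : ∀ g, ∃ (c : K) (U : Submodule K V), Module.Finite K U ∧ ∀ v, f g v - c • v ∈ U) :
    ∃ (A : Type w) (_ : Ring A) (_ : Algebra K A),
      (∀ s : Finset A, ∃ D : Subalgebra K A, Module.Finite K D ∧ ∀ a ∈ s, a ∈ D) ∧
      ∃ φ : G →* Aˣ, Function.Injective φ := by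
  let g : G →* fin K V :=
    { toFun := fun x => ⟨f x, hfin x⟩
      map_one' := Subtype.ext (map_one f)
      map_mul' := fun x y => Subtype.ext (map_mul f x y) }
  refine ⟨fin K V, inferInstance, inferInstance, locFinDim, g.toHomUnits, fun x y hxy => hf ?_⟩
  have h1 := congrArg (fun u : (fin K V)ˣ => ((u : fin K V) : Module.End K V)) hxy
  exact h1

end

section

variable {B : Type w} (M : CoxeterMatrix B)

/-- Coxeter groups of arbitrary rank are finitary linear groups over the field of real algebraic numbers -/
theorem coxeter_inUnits : ∃ (A : Type w) (_ : Ring A) (_ : Algebra RA A),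
      (∀ s : Finset A, ∃ D : Subalgebra RA A, Module.Finite RA D ∧ ∀ a ∈ s, a ∈ D) ∧
      ∃ φ : M.Group →* Aˣ, Function.Injective φ := by
  classical
  let cs := M.toCoxeterSystem
  have hcs : Function.Injective (rep cs (cos_gram M)) := rep_injective cs (cos_gram M)
  refine inUnits_of_finitary (K := RA) (V := B →₀ RA) (rep cs (cos_gram M)) hcs fun g => ?_
  have key : rep cs (cos_gram M) g ∈ fin RA (B →₀ RA) := by
    refine cs.simple_induction_left (p := fun g => rep cs (cos_gram M) g ∈ fin RA (B →₀ RA))
      g ?_ ?_
    · rw [map_one]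
      exact one_mem _
    · intro w i hw
      rw [map_mul]
      refine mul_mem ?_ hw
      rw [rep_simple]
      refine ⟨1, Submodule.span RA {root RA i}, inferInstance, fun v => ?_⟩
      rw [refl_apply, one_smul, sub_sub_cancel_left]
      exact neg_mem (Submodule.smul_mem _ _ (Submodule.mem_span_singleton_self _))
  exact key

end

end Pool.Agent.Helper64.CX
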