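import Pool.Agent.Helper64.CX.Tits

/-!
CX-3. The geometric representation over the field of real algebraic numbers.
-/

set_option autoImplicit false

namespace Pool.Agent.Helper64.CX

universe u

theorem map_sq {K L : Type*} [Field K] [Field L] (f : K →+* L) (c : K) (n : ℕ) :
    f (sq c n) = sq (f c) n := by
  induction n using Nat.strong_induction_on with
  | _ n IH =>
    match n with
    | 0 => simp [sq]
    | 1 => simp [sq]
    | n + 2 =>
      show f (2 * c * sq c (n + 1) - sq c n) = 2 * f c * sq (f c) (n + 1) - sq (f c) n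
      rw [map_sub, map_mul, map_mul, map_ofNat, IH (n + 1) (by omega), IH n (by omega)]

theorem sin_mul_sq (θ : ℝ) (n : ℕ) : Real.sin θ * sq (Real.cos θ) n = Real.sin (n * θ) := by
  induction n using Nat.strong_induction_on with
  | _ n IH =>
    match n with
    | 0 => simp [sq]
    | 1 => simp [sq]
    | n + 2 =>
      show Real.sin θ * (2 * Real.cos θ * sq (Real.cos θ) (n + 1) - sq (Real.cos θ) n) = _
      have h1 := IH (n + 1) (by omega)
      have h2 := IH n (by omega)
      have e1 : ((n + 2 : ℕ) : ℝ) * θ = ((n + 1 : ℕ) : ℝ) * θ + θ := by push_cast; ring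
      have e2 : ((n : ℕ) : ℝ) * θ = ((n + 1 : ℕ) : ℝ) * θ - θ := by push_cast; ring
      rw [e1, Real.sin_add]
      rw [e2, Real.sin_sub] at h2
      linear_combination 2 * Real.cos θ * h1 - h2

theorem sq_one (n : ℕ) : sq (1 : ℝ) n = n := by
  induction n using Nat.strong_induction_on with
  | _ n IH =>
    match n with
    | 0 => simp [sq]
    | 1 => simp [sq]
    | n + 2 =>
      show 2 * 1 * sq (1 : ℝ) (n + 1) - sq (1 : ℝ) n = _
      rw [IH (n + 1) (by omega), IH n (by omega)]
      push_cast
      ring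

/-- the field of real algebraic numbers -/
noncomputable def RA : Subfield ℝ := (algebraicClosure ℚ ℝ).toSubfield

theorem mem_RA {x : ℝ} : x ∈ RA ↔ IsAlgebraic ℚ x := mem_algebraicClosure_iff

theorem isAlgebraic_RA (x : RA) : IsAlgebraic ℤ x := by
  have h1 : IsAlgebraic ℚ (x : ℝ) := mem_RA.1 x.2
  have h2 : IsAlgebraic ℤ (x : ℝ) := (IsFractionRing.isAlgebraic_iff ℤ ℚ ℝ).2 h1
  obtain ⟨p, hp, hpx⟩ := h2
  refine ⟨p, hp, ?_⟩
  apply Subtype.ext
  have h3 : ((Polynomial.aeval x p : RA) : ℝ) = Polynomial.aeval (x : ℝ) p :=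
    (Polynomial.aeval_algebraMap_apply ℝ x p).symm
  rw [h3, hpx]
  rfl

theorem cos_mem (m : ℕ) : -Real.cos (Real.pi / m) ∈ RA := by
  refine neg_mem (mem_RA.2 ?_)
  have h := Real.isAlgebraic_cos_rat_mul_pi (1 / m)
  have e : ((1 / m : ℚ) : ℝ) * Real.pi = Real.pi / m := by
    push_cast
    ring
  rw [e] at h
  exact (IsFractionRing.isAlgebraic_iff ℤ ℚ ℝ).1 h

/-- the Gram matrix -/
noncomputable def gram {B : Type u} (M : CoxeterMatrix B) (i j : B) : RA :=
  ⟨-Real.cos (Real.pi / M i j), cos_mem _⟩

theorem coe_sq {B : Type u} (M : CoxeterMatrix B) (i j : B) (n : ℕ) :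
    ((sq (-gram M i j) n : RA) : ℝ) = sq (Real.cos (Real.pi / M i j)) n := by
  have h := map_sq RA.subtype (-gram M i j) n
  have h2 : RA.subtype (-gram M i j) = Real.cos (Real.pi / M i j) := by
    rw [map_neg]
    show - -Real.cos (Real.pi / M i j) = _
    rw [neg_neg]
  rw [h2] at h
  exact h

theorem sin_pos {m : ℕ} (hm : 2 ≤ m) : 0 < Real.sin (Real.pi / m) := by
  have h2 : (2 : ℝ) ≤ m := by exact_mod_cast hm
  apply Real.sin_pos_of_pos_of_lt_pi
  · exact div_pos Real.pi_pos (by linarith)
  · rw [div_lt_iff₀ (by linarith)]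
    nlinarith [Real.pi_pos]

theorem cos_gram {B : Type u} (M : CoxeterMatrix B) : Cos M (gram M) := by
  have hM : ∀ i j, i ≠ j → M i j ≠ 0 → 2 ≤ M i j := by
    intro i j hij h0
    have := M.off_diagonal i j hij
    omega
  constructor
  · intro i
    apply Subtype.ext
    show -Real.cos (Real.pi / M i i) = ((1 : RA) : ℝ)
    rw [M.diagonal]
    simp
  · intro i j
    apply Subtype.ext
    show -Real.cos (Real.pi / M i j) = -Real.cos (Real.pi / M j i)
    rw [M.symmetric]
  · intro i j hij n hn
    rw [← Subtype.coe_le_coe, coe_sq]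
    show (0 : ℝ) ≤ _
    by_cases h0 : M i j = 0
    · rw [h0]
      simp [sq_one]
    · have hn' : n ≤ M i j := hn.resolve_left h0
      have h1 := sin_pos (hM i j hij h0)
      have h2 := sin_mul_sq (Real.pi / M i j) n
      have hm : (0 : ℝ) < M i j := by
        have := hM i j hij h0
        exact_mod_cast (by omega : 0 < M i j)
      have h3 : 0 ≤ Real.sin (n * (Real.pi / M i j)) := by
        apply Real.sin_nonneg_of_nonneg_of_le_pi
        · positivity
        · rw [mul_div_assoc', div_le_iff₀ hm, mul_comm]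
          exact mul_le_mul_of_nonneg_left (by exact_mod_cast hn') Real.pi_pos.le
      rw [← h2] at h3
      exact nonneg_of_mul_nonneg_right h3 h1
  · intro i j hij h0
    have h1 := sin_pos (hM i j hij h0)
    have hm : (M i j : ℝ) ≠ 0 := by exact_mod_cast h0
    apply Subtype.ext
    rw [coe_sq]
    have h2 := sin_mul_sq (Real.pi / M i j) (2 * M i j)
    have e : ((2 * M i j : ℕ) : ℝ) * (Real.pi / M i j) = 2 * Real.pi := by
      push_cast
      field_simp
    rw [e, Real.sin_two_pi] at h2
    exact (mul_eq_zero.1 h2).resolve_left h1.ne'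
  · intro i j hij h0
    have h1 := sin_pos (hM i j hij h0)
    have hm : (M i j : ℝ) ≠ 0 := by exact_mod_cast h0
    apply Subtype.ext
    rw [coe_sq]
    have h2 := sin_mul_sq (Real.pi / M i j) (2 * M i j + 1)
    have e : ((2 * M i j + 1 : ℕ) : ℝ) * (Real.pi / M i j) = Real.pi / M i j + 2 * Real.pi := by
      push_cast
      field_simp
      ring
    rw [e, Real.sin_add_two_pi] at h2
    show _ = (1 : ℝ)
    exact mul_left_cancel₀ h1.ne' (h2.trans (mul_one _).symm)
  · intro i j hij h0 h
    have h1 := sin_pos (hM i j hij h0)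
    have h2 : (1 : ℝ) - Real.cos (Real.pi / M i j) * Real.cos (Real.pi / M i j) = 0 := by
      have := congrArg Subtype.val h
      have e : ((1 - gram M i j * gram M i j : RA) : ℝ) =
        1 - (-Real.cos (Real.pi / M i j)) * (-Real.cos (Real.pi / M i j)) := rfl
      rw [e] at this
      linarith [this, show ((0 : RA) : ℝ) = 0 from rfl]
    have h3 := Real.sin_sq_add_cos_sq (Real.pi / M i j)
    nlinarith [h1]

end Pool.Agent.Helper64.CX
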