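import Mathlib

/-!
CX-1. The geometric representation of a Coxeter group.
-/

set_option autoImplicit false

namespace Pool.Agent.Helper64.CX

universe u v

/-- `sq c n = sin (n θ) / sin θ` if `c = cos θ` -/
def sq {K : Type v} [Field K] (c : K) : ℕ → K
  | 0 => 0
  | 1 => 1
  | n + 2 => 2 * c * sq c (n + 1) - sq c n

/-- a symmetric matrix `a` with `a i i = 1` such that the numbers `- a i j` behave like
`cos (π / M i j)` -/
structure Cos {B : Type u} (M : CoxeterMatrix B) {K : Type v} [Field K] [LinearOrder K]
    (a : B → B → K) : Prop where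
  diag : ∀ i, a i i = 1
  symm : ∀ i j, a i j = a j i
  pos : ∀ i j, i ≠ j → ∀ n, (M i j = 0 ∨ n ≤ M i j) → 0 ≤ sq (-a i j) n
  zero : ∀ i j, i ≠ j → M i j ≠ 0 → sq (-a i j) (2 * M i j) = 0
  one : ∀ i j, i ≠ j → M i j ≠ 0 → sq (-a i j) (2 * M i j + 1) = 1
  ne : ∀ i j, i ≠ j → M i j ≠ 0 → 1 - a i j * a i j ≠ 0

section

variable {B : Type u} {K : Type v} [Field K] (a : B → B → K)

/-- the linear form `B(α_i, ·)` -/
noncomputable def form (i : B) : (B →₀ K) →ₗ[K] K := Finsupp.linearCombination K (a i)

/-- the simple root -/
noncomputable def root (K : Type v) [Field K] (i : B) : B →₀ K := Finsupp.single i 1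

theorem form_root (i j : B) : form a i (root K j) = a i j := by
  simp [form, root]

/-- the reflection -/
noncomputable def refl (i : B) : (B →₀ K) →ₗ[K] (B →₀ K) :=
  LinearMap.id - (2 : K) • (form a i).smulRight (root K i)

theorem refl_apply (i : B) (v : B →₀ K) :
    refl a i v = v - (2 * form a i v) • root K i := by
  simp [refl, smul_smul]

theorem refl_root (i j : B) : refl a i (root K j) = root K j - (2 * a i j) • root K i := by
  rw [refl_apply, form_root]

theorem refl_refl (h : ∀ i, a i i = 1) (i : B) (v : B →₀ K) : refl a i (refl a i v) = v := by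
  rw [refl_apply, refl_apply, map_sub, map_smul, form_root, h, smul_eq_mul]
  have : 2 * (form a i v - 2 * form a i v * 1) = -(2 * form a i v) := by ring
  rw [this, neg_smul, sub_neg_eq_add, sub_add_cancel]

/-- powers of the product of two reflections on a simple root -/
theorem pow_root (h : ∀ i, a i i = 1) (hs : ∀ i j, a i j = a j i) (i j : B) (n : ℕ) :
    ((refl a i * refl a j) ^ n) (root K i) =
      sq (-a i j) (2 * n + 1) • root K i + sq (-a i j) (2 * n) • root K j := by
  induction n with
  | zero => simp [sq]
  | succ n ih =>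
    rw [pow_succ', Module.End.mul_apply, ih, Module.End.mul_apply, map_add, map_smul, map_smul,
      refl_root, refl_root, h, map_add, map_smul, map_smul, map_sub, map_sub, map_smul, map_smul,
      refl_root, refl_root, h]
    have e1 : sq (-a i j) (2 * (n + 1)) = 2 * (-a i j) * sq (-a i j) (2 * n + 1) -
      sq (-a i j) (2 * n) := rfl
    have e2 : sq (-a i j) (2 * (n + 1) + 1) = 2 * (-a i j) * sq (-a i j) (2 * (n + 1)) -
      sq (-a i j) (2 * n + 1) := rfl
    rw [e2, e1, hs j i]
    module

theorem pow_mul_eq_one (h : ∀ i, a i i = 1) (hs : ∀ i j, a i j = a j i) (i j : B) (m : ℕ)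
    (hne : 1 - a i j * a i j ≠ 0)
    (h0 : sq (-a i j) (2 * m) = 0) (h1 : sq (-a i j) (2 * m + 1) = 1) :
    (refl a i * refl a j) ^ m = 1 := by
  have hij : ((refl a i * refl a j) ^ m) (root K i) = root K i := by
    rw [pow_root a h hs, h0, h1, one_smul, zero_smul, add_zero]
  have hji : ((refl a j * refl a i) ^ m) (root K j) = root K j := by
    rw [pow_root a h hs, hs j i, h0, h1, one_smul, zero_smul, add_zero]
  have hinv : ∀ n : ℕ, (refl a i * refl a j) ^ n * (refl a j * refl a i) ^ n = 1 := by
    have hk : (refl a i * refl a j) * (refl a j * refl a i) = 1 := by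
      refine LinearMap.ext fun v => ?_
      show refl a i (refl a j (refl a j (refl a i v))) = v
      rw [refl_refl a h, refl_refl a h]
    intro n
    induction n with
    | zero => simp
    | succ n ih =>
      rw [pow_succ, pow_succ', mul_assoc, ← mul_assoc (refl a i * refl a j) (refl a j * refl a i),
        hk, one_mul, ih]
  have hj : ((refl a i * refl a j) ^ m) (root K j) = root K j := by
    have := congrArg (fun f : Module.End K (B →₀ K) => f (root K j)) (hinv m)
    simp only [Module.End.mul_apply, Module.End.one_apply] at this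
    rw [hji] at this
    exact this
  refine LinearMap.ext fun v => ?_
  obtain ⟨p, hp⟩ : ∃ p, p * (1 - a i j * a i j) = form a i v - a i j * form a j v :=
    ⟨(form a i v - a i j * form a j v) / (1 - a i j * a i j), div_mul_cancel₀ _ hne⟩
  obtain ⟨q, hq⟩ : ∃ q, q * (1 - a i j * a i j) = form a j v - a i j * form a i v :=
    ⟨(form a j v - a i j * form a i v) / (1 - a i j * a i j), div_mul_cancel₀ _ hne⟩
  obtain ⟨w, hw⟩ : ∃ w, w = v - p • root K i - q • root K j := ⟨_, rfl⟩
  have f1 : form a i w = 0 := by
    rw [hw, map_sub, map_sub, map_smul, map_smul, form_root, form_root, h, smul_eq_mul, smul_eq_mul]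
    have : (form a i v - p * 1 - q * a i j) * (1 - a i j * a i j) = 0 := by
      linear_combination (-1 : K) * hp - a i j * hq
    exact (mul_eq_zero.1 this).resolve_right hne
  have f2 : form a j w = 0 := by
    rw [hw, map_sub, map_sub, map_smul, map_smul, form_root, form_root, h, hs j i, smul_eq_mul,
      smul_eq_mul]
    have : (form a j v - p * a i j - q * 1) * (1 - a i j * a i j) = 0 := by
      linear_combination (-a i j) * hp - hq
    exact (mul_eq_zero.1 this).resolve_right hne
  have hfix : ∀ n : ℕ, ((refl a i * refl a j) ^ n) w = w := by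
    intro n
    induction n with
    | zero => simp
    | succ n ih =>
      rw [pow_succ, Module.End.mul_apply, Module.End.mul_apply, refl_apply a j, f2, mul_zero,
        zero_smul, sub_zero, refl_apply a i, f1, mul_zero, zero_smul, sub_zero, ih]
  have hv : v = w + p • root K i + q • root K j := by
    rw [hw]
    module
  rw [hv, map_add, map_add, map_smul, map_smul, hij, hj, hfix]
  rfl

end

section

variable {B : Type u} {M : CoxeterMatrix B} {K : Type v} [Field K] [LinearOrder K]
  {a : B → B → K}

theorem isLiftable (h : Cos M a) : M.IsLiftable (refl a) := by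
  intro i j
  by_cases hij : i = j
  · subst hij
    rw [M.diagonal, pow_one]
    refine LinearMap.ext fun v => ?_
    exact refl_refl a h.diag i v
  · by_cases hM : M i j = 0
    · rw [hM, pow_zero]
    · exact pow_mul_eq_one a h.diag h.symm i j _ (h.ne i j hij hM) (h.zero i j hij hM)
        (h.one i j hij hM)

/-- the geometric representation -/
noncomputable def rep {W : Type*} [Group W] (cs : CoxeterSystem M W) (h : Cos M a) :
    W →* Module.End K (B →₀ K) := cs.lift ⟨refl a, isLiftable h⟩

theorem rep_simple {W : Type*} [Group W] (cs : CoxeterSystem M W) (h : Cos M a) (i : B) :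
    rep cs h (cs.simple i) = refl a i := cs.lift_apply_simple (isLiftable h) i

end

end Pool.Agent.Helper64.CX
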