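import Pool.Agent.Helper64.CX.Rep

/-!
CX-2. The geometric representation of a Coxeter group is faithful (Tits).
-/

set_option autoImplicit false

namespace Pool.Agent.Helper64.CX

open CoxeterSystem

universe u v

variable {B : Type u} {M : CoxeterMatrix B} {K : Type v} [Field K] [LinearOrder K]
  [IsStrictOrderedRing K] {a : B → B → K} {W : Type*} [Group W] (cs : CoxeterSystem M W)
  (h : Cos M a)

omit [IsStrictOrderedRing K] in
/-- alternating words on a simple root -/
theorem rep_alt (i j : B) (k : ℕ) :
    rep cs h (cs.wordProd (alternatingWord i j k)) (root K i) =
      if Even k then sq (-a i j) (k + 1) • root K i + sq (-a i j) k • root K j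
      else sq (-a i j) k • root K i + sq (-a i j) (k + 1) • root K j := by
  induction k with
  | zero => simp [alternatingWord, sq]
  | succ k ih =>
    rw [alternatingWord_succ', wordProd_cons, map_mul, Module.End.mul_apply, ih, rep_simple]
    have e : sq (-a i j) (k + 1 + 1) = 2 * (-a i j) * sq (-a i j) (k + 1) - sq (-a i j) k := rfl
    by_cases hk : Even k
    · have hk' : ¬ Even (k + 1) := by
        rw [Nat.even_add_one]
        exact fun h' => h' hk
      rw [if_pos hk, if_pos hk, if_neg hk', map_add, map_smul, map_smul, refl_root, refl_root,
        h.diag, h.symm j i, e]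
      module
    · have hk' : Even (k + 1) := by
        rw [Nat.even_add_one]
        exact hk
      rw [if_neg hk, if_neg hk, if_pos hk', map_add, map_smul, map_smul, refl_root, refl_root,
        h.diag, e]
      module

theorem nonneg_of_not_descent (n : ℕ) : ∀ w : W, cs.length w = n → ∀ i, ¬ cs.IsRightDescent w i →
    ∀ b, 0 ≤ (rep cs h w (root K i)) b := by
  classical
  induction n using Nat.strong_induction_on with
  | _ n IH =>
    intro w hw i hi b
    by_cases hw1 : w = 1
    · subst hw1
      rw [map_one, Module.End.one_apply, root, Finsupp.single_apply]
      split_ifs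
      · exact zero_le_one
      · exact le_rfl
    · obtain ⟨j, hj⟩ := cs.exists_rightDescent_of_ne_one hw1
      have hij : i ≠ j := by
        rintro rfl
        exact hi hj
      let P : ℕ → Prop := fun k => ∃ v, w = v * cs.wordProd (alternatingWord i j k) ∧
        cs.length v + k = cs.length w
      have hP1 : P 1 := by
        refine ⟨w * cs.simple j, ?_, ?_⟩
        · have : alternatingWord i j 1 = [j] := rfl
          rw [this, wordProd_singleton, simple_mul_simple_cancel_right]
        · exact (cs.isRightDescent_iff).1 hj
      have hPle : ∀ k, P k → k ≤ cs.length w := by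
        rintro k ⟨v, _, hv⟩
        omega
      obtain ⟨k, hkP, hk1, hkmax⟩ : ∃ k, P k ∧ 1 ≤ k ∧ ¬ P (k + 1) := by
        refine ⟨Nat.findGreatest P (cs.length w), Nat.findGreatest_spec (hPle 1 hP1) hP1,
          Nat.le_findGreatest (hPle 1 hP1) hP1, fun hcon => ?_⟩
        have := Nat.le_findGreatest (hPle _ hcon) hcon
        omega
      obtain ⟨v, hv, hlv⟩ := hkP
      have hx : ¬ cs.IsRightDescent v (if Even k then j else i) := by
        intro hd
        refine hkmax ⟨v * cs.simple (if Even k then j else i), ?_, ?_⟩
        · rw [alternatingWord_succ', wordProd_cons, ← mul_assoc, simple_mul_simple_cancel_right]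
          exact hv
        · have := (cs.isRightDescent_iff).1 hd
          omega
      have hy : ¬ cs.IsRightDescent v (if Even k then i else j) := by
        intro hd
        obtain ⟨k', rfl⟩ : ∃ k', k = k' + 1 := ⟨k - 1, by omega⟩
        have h1 := (cs.isRightDescent_iff).1 hd
        have h2 : (if Even (k' + 1) then i else j) = if Even k' then j else i := by
          by_cases hk : Even k'
          · rw [if_pos hk, if_neg (by rw [Nat.even_add_one]; exact fun h' => h' hk)]
          · rw [if_neg hk, if_pos (by rw [Nat.even_add_one]; exact hk)]
        rw [h2] at h1
        have h3 : w = v * cs.simple (if Even k' then j else i) *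
            cs.wordProd (alternatingWord i j k') := by
          rw [hv, alternatingWord_succ', wordProd_cons, mul_assoc]
        have h4 := cs.length_mul_le (v * cs.simple (if Even k' then j else i))
          (cs.wordProd (alternatingWord i j k'))
        rw [← h3] at h4
        have h5 := cs.length_wordProd_le (alternatingWord i j k')
        rw [length_alternatingWord] at h5
        omega
      have hlt : cs.length v < n := by omega
      have hvi : ∀ b, 0 ≤ (rep cs h v (root K i)) b := by
        refine IH _ hlt v rfl i ?_
        by_cases hk : Even k
        · rwa [if_pos hk] at hy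
        · rwa [if_neg hk] at hx
      have hvj : ∀ b, 0 ≤ (rep cs h v (root K j)) b := by
        refine IH _ hlt v rfl j ?_
        by_cases hk : Even k
        · rwa [if_pos hk] at hx
        · rwa [if_neg hk] at hy
      have hkM : M i j = 0 ∨ k + 1 ≤ M i j := by
        by_contra hcon
        push Not at hcon
        obtain ⟨hM, hkM⟩ := hcon
        have hred : cs.IsReduced (alternatingWord i j k) := by
          have h1 := cs.length_mul_le v (cs.wordProd (alternatingWord i j k))
          rw [← hv] at h1
          have h2 := cs.length_wordProd_le (alternatingWord i j k)
          rw [length_alternatingWord] at h2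
          show cs.length (cs.wordProd (alternatingWord i j k)) = (alternatingWord i j k).length
          rw [length_alternatingWord]
          omega
        rcases Nat.lt_or_ge (M i j) k with hlt' | hge
        · exact cs.not_isReduced_alternatingWord i j hM hlt' hred
        · have hkeq : k = M i j := by omega
          obtain ⟨m, hm⟩ : ∃ m, k = m + 1 := ⟨k - 1, by omega⟩
          have h1 := cs.prod_alternatingWord_eq_prod_alternatingWord_sub i j k (by omega)
          have h2 : M i j * 2 - k = m + 1 := by omega
          rw [h2, alternatingWord_succ, wordProd_concat] at h1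
          apply hi
          have h3 : w * cs.simple i = v * cs.wordProd (alternatingWord i j m) := by
            rw [hv, h1, ← mul_assoc, simple_mul_simple_cancel_right]
          show cs.length (w * cs.simple i) < cs.length w
          rw [h3]
          have h4 := cs.length_mul_le v (cs.wordProd (alternatingWord i j m))
          have h5 := cs.length_wordProd_le (alternatingWord i j m)
          rw [length_alternatingWord] at h5
          omega
      have s1 : 0 ≤ sq (-a i j) k := h.pos i j hij k (hkM.imp id fun h' => by omega)
      have s2 : 0 ≤ sq (-a i j) (k + 1) := h.pos i j hij (k + 1) hkM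
      rw [hv, map_mul, Module.End.mul_apply, rep_alt]
      split_ifs
      · rw [map_add, map_smul, map_smul, Finsupp.add_apply, Finsupp.smul_apply,
          Finsupp.smul_apply]
        exact add_nonneg (mul_nonneg s2 (hvi b)) (mul_nonneg s1 (hvj b))
      · rw [map_add, map_smul, map_smul, Finsupp.add_apply, Finsupp.smul_apply,
          Finsupp.smul_apply]
        exact add_nonneg (mul_nonneg s1 (hvi b)) (mul_nonneg s2 (hvj b))

/-- Tits: the geometric representation is faithful -/
theorem rep_injective : Function.Injective (rep cs h) := by
  rw [injective_iff_map_eq_one]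
  intro w hw
  by_contra hw1
  obtain ⟨i, hi⟩ := cs.exists_rightDescent_of_ne_one hw1
  have h1 := (cs.isRightDescent_iff_not_isRightDescent_mul).1 hi
  have h2 := nonneg_of_not_descent cs h _ _ rfl i h1 i
  rw [map_mul, hw, one_mul, rep_simple, refl_root, h.diag] at h2
  have h3 : (root K i - (2 * (1 : K)) • root K i : B →₀ K) i = -1 := by
    rw [Finsupp.sub_apply, Finsupp.smul_apply, root, Finsupp.single_eq_same, smul_eq_mul]
    ring
  rw [h3] at h2
  exact absurd h2 (not_le.2 (by norm_num))

end Pool.Agent.Helper64.CX
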